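import Pool.Agent.H34.FS.Targets
import Pool.Agent.H52.HFQ.AC3

/-!
# MP_63b6b1_nt, board hfs, row AL3: the sum of the squares of the correlations
-/

set_option autoImplicit false

open Finset Pool.Agent.H32.RQ Pool.Agent.H34.FQ

namespace Pool.Agent.H14.HFS

open Pool.Agent.H34.FS Pool.Agent.H52.HFQ.AC3

theorem pf_AL3 : T_AL3 := by
  classical
  intro n M _ u
  have hM : 0 < M := Nat.pos_of_ne_zero (NeZero.ne M)
  set zz : (Fin n → ZMod M) → Fin n → ZMod M := fun y i => u i - y i with hzz
  calc ∑ u' : Fin n → ZMod M,
      ((Finset.univ.filter fun a : ZMod M => ∀ i, a * (u i - u' i) = 0).card : ℝ) ^ 2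
      ≤ ∑ y : Fin n → ZMod M, ((hg (zz y) : ℕ) : ℝ) ^ 2 := by
        refine Finset.sum_le_sum fun y _ => ?_
        have h2 := ann_card (zz y)
        have h3 : (Finset.univ.filter fun a : ZMod M => ∀ i, a * (u i - y i) = 0) =
            (Finset.univ.filter fun β : ZMod M => ∀ i, β * zz y i = 0) := by
          refine Finset.filter_congr fun a _ => ?_
          rw [hzz]
        rw [h3]
        refine pow_le_pow_left₀ (Nat.cast_nonneg _) ?_ 2
        exact (Nat.cast_le (α := ℝ)).2 (le_of_eq_of_le (by congr) h2)
    _ = ∑ h ∈ M.divisors, ∑ y ∈ Finset.univ.filter (fun y : Fin n → ZMod M => hg (zz y) = h),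
          ((hg (zz y) : ℕ) : ℝ) ^ 2 := by
        rw [Finset.sum_fiberwise_of_maps_to fun y _ => ?_]
        exact Nat.mem_divisors.2 ⟨hg_dvd _, hM.ne'⟩
    _ ≤ ∑ h ∈ M.divisors, (h : ℝ) ^ 2 * ((M : ℝ) / h) ^ n := by
        refine Finset.sum_le_sum fun h hh => ?_
        have hd : h ∣ M := (Nat.mem_divisors.1 hh).1
        calc ∑ y ∈ Finset.univ.filter (fun y : Fin n → ZMod M => hg (zz y) = h),
              ((hg (zz y) : ℕ) : ℝ) ^ 2
            = ∑ y ∈ Finset.univ.filter (fun y : Fin n → ZMod M => hg (zz y) = h),
                (h : ℝ) ^ 2 := by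
              refine Finset.sum_congr rfl fun y hy => ?_
              rw [(Finset.mem_filter.1 hy).2]
          _ = (h : ℝ) ^ 2 *
              ((Finset.univ.filter (fun y : Fin n → ZMod M => hg (zz y) = h)).card : ℝ) := by
              rw [Finset.sum_const, nsmul_eq_mul, mul_comm]
          _ ≤ (h : ℝ) ^ 2 * ((M : ℝ) / h) ^ n := by
              refine mul_le_mul_of_nonneg_left ?_ (by positivity)
              have h2 : (Finset.univ.filter (fun y : Fin n → ZMod M => hg (zz y) = h)).card ≤
                  (M / h) ^ n := by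
                refine le_trans (Finset.card_le_card fun y hy => ?_) (cls_card hd u)
                have h3 := (Finset.mem_filter.1 hy).2
                rw [Finset.mem_filter]
                refine ⟨Finset.mem_univ _, fun i => ?_⟩
                have h4 := hg_dvd_val (zz y) i
                rw [h3] at h4
                exact h4
              calc ((Finset.univ.filter (fun y : Fin n → ZMod M => hg (zz y) = h)).card : ℝ)
                  ≤ (((M / h) ^ n : ℕ) : ℝ) := by exact_mod_cast h2
                _ = ((M : ℝ) / h) ^ n := by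
                    have h5 : h ≠ 0 := by
                      rintro rfl
                      exact hM.ne' (Nat.eq_zero_of_zero_dvd hd)
                    push_cast [Nat.cast_div hd (by exact_mod_cast h5 : (h : ℝ) ≠ 0)]
                    ring
    _ = (M : ℝ) ^ n * ∑ h ∈ M.divisors, (h : ℝ) ^ 2 / (h : ℝ) ^ n := by
        rw [Finset.mul_sum]
        refine Finset.sum_congr rfl fun h _ => ?_
        rw [div_pow]
        ring

end Pool.Agent.H14.HFS
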